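import Pool.Agent.DG.DgZ
import Pool.Agent.MP_602153_ag.IdealModel

set_option autoImplicit false

/-!
# Regular models of the diagonal hypersurfaces of squarefree degree

The notions of the statement (`Pool/Agent/NodHyp/Stmt.lean`): `NH.HasRegularModel F` says that the
hypersurface `F = 0` over `ℚ` is the generic fibre of an integral, locally Noetherian, regular
scheme, projective and flat over `ℤ`.

`result`: for `d` squarefree and integers `a_0, ..., a_n` which are nonzero and prime to `d`, the
hypersurface `∑ a_i x_i ^ d = 0` has a regular projective flat model over `ℤ`. The prime numbers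
which divide the coefficients are arbitrary (prime to `d`), with arbitrary multiplicities.

`fermat`: the Fermat hypersurfaces of squarefree degree, in all dimensions.

The proof. The model is the blow up of an ideal of the graded ring `ℤ[x] / (F)` which is a power
of the product of homogeneous ideals `I_p`, one for each prime number `p` which divides `d` or a
coefficient; `I_p` contains a power of `p`.

* If `p` does not divide `d`, the equation is nondegenerate with respect to its Newton polytope in
  the variables `x_i` and `p`. The ideal `I_p` is a product of monomial ideals; it comes from a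
  projective regular subdivision of the fan of `(ℙ ^ n) × (𝔸 ^ 1)`, subordinate to the Newton
  polytope, obtained by star subdivisions.
* If `p` divides `d`, `d = p m`, then `F = S ^ p + p W` with `S = ∑ a_i x_i ^ m`. One blows up
  the product of the ideals `(p, S ^ j)`, `j = 1, ..., p - 1`. The points which remain are contact
  points of `S = 0` and `W = 0` modulo `p`. At a contact point `W` restricted to `S = 0` is
  `q (u) + ∑ h_l y_l ^ m` with a nondegenerate quadratic form `q`, where the `y_l` are the
  coordinates which vanish at the point. The resulting singular points are resolved by the blow up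
  of a product of ideals with quasi-homogeneous generators.
-/

open AlgebraicGeometry CategoryTheory CategoryTheory.Limits

namespace Pool.Agent.Results.MP_602153_ag.DiagonalHypersurfaces

open MvPolynomial Pool.Agent

theorem result (n d : ℕ) (hn : 2 ≤ n) (hd : 2 ≤ d) (hsq : Squarefree d) (a : Fin (n + 1) → ℤ)
    (ha : ∀ i, a i ≠ 0) (had : ∀ i, IsCoprime (a i) (d : ℤ)) :
    NH.HasRegularModel (∑ i, C (a i) * X i ^ d) :=
  DG.diag_squarefree hn hd hsq ha had

/-- The Fermat hypersurfaces of squarefree degree. -/
theorem fermat (n d : ℕ) (hn : 2 ≤ n) (hd : 2 ≤ d) (hsq : Squarefree d) :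
    NH.HasRegularModel (∑ i : Fin (n + 1), X i ^ d) := by
  have h := result n d hn hd hsq (fun _ => 1) (fun _ => one_ne_zero) fun _ => isCoprime_one_left
  simpa only [C_1, one_mul] using h

attribute [local instance] MvPolynomial.gradedAlgebra in
/-- A graded ring as in the definition of `HasRegularModel` exists, so that this notion is not
vacuous. -/
theorem exists_coordinate_ring {n d : ℕ} (F : MvPolynomial (Fin (n + 1)) ℤ)
    (hF : F.IsHomogeneous d) :
    ∃ (B : Type) (_ : CommRing B) (_ : Algebra ℚ B) (ℬ : ℕ → Submodule ℚ B) (_ : GradedAlgebra ℬ)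
      (y : Fin (n + 1) → B), (∀ i, y i ∈ ℬ 1) ∧
      Function.Surjective (aeval y : MvPolynomial (Fin (n + 1)) ℚ →ₐ[ℚ] B) ∧
      RingHom.ker (aeval y : MvPolynomial (Fin (n + 1)) ℚ →ₐ[ℚ] B) =
        Ideal.span {map (algebraMap ℤ ℚ) F} := by
  classical
  let I : Ideal (MvPolynomial (Fin (n + 1)) ℚ) := Ideal.span {map (algebraMap ℤ ℚ) F}
  have hI : I.IsHomogeneous (homogeneousSubmodule (Fin (n + 1)) ℚ) := by
    refine Ideal.homogeneous_span _ _ ?_
    rintro _ rfl
    exact ⟨d, hF.map _⟩
  have hy : aeval (Pool.MP_602153_ag.icoord (I := I)) =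
      (Ideal.Quotient.mkₐ ℚ I : MvPolynomial (Fin (n + 1)) ℚ →ₐ[ℚ] _) := by
    apply MvPolynomial.algHom_ext
    intro i
    rw [aeval_X]
    rfl
  refine ⟨MvPolynomial (Fin (n + 1)) ℚ ⧸ I, inferInstance, inferInstance,
    Pool.MP_602153_ag.igrad I, Pool.MP_602153_ag.iGraded I hI,
    Pool.MP_602153_ag.icoord (I := I), Pool.MP_602153_ag.icoord_mem (I := I), ?_, ?_⟩
  · rw [hy]
    exact Ideal.Quotient.mkₐ_surjective ℚ I
  · rw [hy]
    exact Ideal.Quotient.mkₐ_ker ℚ I

end Pool.Agent.Results.MP_602153_ag.DiagonalHypersurfaces
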