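import Pool.Agent.HermVar.Exists

set_option autoImplicit false

/-!
# Hermitian varieties over quadratic fields

Let `K` be a quadratic field with conjugation `σ`, and let `M` be an invertible Hermitian matrix
of size `n + 1` over `K`.  The Hermitian variety
`X = {v : ∑ M_ik v_i σ(v_k) = 0}` in the Weil restriction `R_{K/ℚ} P^n` (the variety of isotropic
lines of a Hermitian space; a form of the flag variety `F(1, n; n + 1)`, of dimension `2 n - 1`)
has a regular projective flat model over `ℤ`, for every `K`, every `n ≥ 1` and every `M`.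

The proof uses a local-global principle for regular models: lattices in the degree one part of
the homogeneous coordinate ring, each giving a model which is regular at one prime, are glued to
one lattice.  At each prime `p` a minimal Hermitian lattice is used; its model is regular above
`p`, also at the ramified primes and at `2`.
-/

open AlgebraicGeometry CategoryTheory CategoryTheory.Limits

namespace Pool.Agent.Results.MP_602153_ag.HermitianVarieties

theorem result (K : Type) [Field K] [Algebra ℚ K] (hK : Module.finrank ℚ K = 2)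
    (σ : K ≃ₐ[ℚ] K) (hσ : σ ≠ 1) (n : ℕ) (hn : 1 ≤ n)
    (M : Matrix (Fin (n + 1)) (Fin (n + 1)) K) (hM : ∀ i k, M k i = σ (M i k))
    (hdet : M.det ≠ 0)
    -- the homogeneous coordinate ring `B` of the Weil restriction of projective space
    (B : Type) [CommRing B] [Algebra ℚ B] (ℬ : ℕ → Submodule ℚ B) [GradedAlgebra ℬ]
    (hgen : Algebra.adjoin ℚ (ℬ 1 : Set B) = ⊤)
    (j : B →ₐ[ℚ] ((Fin (n + 1) → K) → ℚ)) (hj : Function.Injective j)
    (hone : Submodule.map j.toLinearMap (ℬ 1) = Submodule.span ℚ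
      (Set.range fun (u : Fin (n + 1) → K) (v : Fin (n + 1) → K) =>
        Algebra.norm ℚ (∑ i, u i * v i)))
    -- the equation of the Hermitian variety and its homogeneous coordinate ring `C = B / (H)`
    (H : B) (hH : ∀ v, algebraMap ℚ K (j H v) = ∑ i, ∑ k, M i k * v i * σ (v k))
    (C : Type) [CommRing C] [Algebra ℚ C] (𝒞 : ℕ → Submodule ℚ C) [GradedAlgebra 𝒞]
    (π : B →ₐ[ℚ] C) (hπ : Function.Surjective π) (hπg : ∀ i, ∀ b ∈ ℬ i, π b ∈ 𝒞 i)
    (hker : RingHom.ker π = Ideal.span {H})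
    (X : Scheme) (hX : Nonempty (X ≅ Proj 𝒞)) :
    ∃ (Y : Scheme),
        IsIntegral Y ∧
        IsLocallyNoetherian Y ∧
        (∀ (U : Y.affineOpens) (p : PrimeSpectrum (Y.presheaf.obj (Opposite.op U.1))),
          ringKrullDim (Localization.AtPrime p.asIdeal) =
            (((Module.finrank (IsLocalRing.ResidueField (Localization.AtPrime p.asIdeal))
              (IsLocalRing.CotangentSpace (Localization.AtPrime p.asIdeal)) : ℕ) : ℕ∞) :
                WithBot ℕ∞)) ∧
        (∃ (A : Type) (_ : CommRing A) (𝒜 : ℕ → Submodule ℤ A) (_ : GradedAlgebra 𝒜),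
          (∀ a ∈ 𝒜 0, ∃ n : ℤ, (n : A) = a) ∧
          (∃ s : Finset A, (∀ a ∈ s, a ∈ 𝒜 1) ∧ Algebra.adjoin ℤ (s : Set A) = ⊤) ∧
          Nonempty (Y ≅ Proj 𝒜)) ∧
        Flat (specZIsTerminal.from Y) ∧
        Nonempty (pullback (specZIsTerminal.from Y)
            (specZIsTerminal.from (Spec (CommRingCat.of ℚ))) ≅ X) :=
  Pool.MP_602153_ag.Herm.hasModel hK (by rw [Fintype.card_fin]; omega) σ hσ M hM hdet B ℬ j hj
    hgen hone H hH C 𝒞 π hπ hπg hker X hX

/-- Rings as in `result` exist for all `K`, `n`, `M`, so that the statement is not vacuous. -/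
theorem exists_coordinate_ring (K : Type) [Field K] [Algebra ℚ K]
    (hK : Module.finrank ℚ K = 2) (σ : K ≃ₐ[ℚ] K) (hσ : σ ≠ 1) (n : ℕ)
    (M : Matrix (Fin (n + 1)) (Fin (n + 1)) K) (hM : ∀ i k, M k i = σ (M i k))
    (hdet : M.det ≠ 0) :
    ∃ (B : Type) (_ : CommRing B) (_ : Algebra ℚ B) (ℬ : ℕ → Submodule ℚ B) (_ : GradedAlgebra ℬ)
      (j : B →ₐ[ℚ] ((Fin (n + 1) → K) → ℚ)), Function.Injective j ∧
      Algebra.adjoin ℚ (ℬ 1 : Set B) = ⊤ ∧
      Submodule.map j.toLinearMap (ℬ 1) = Submodule.span ℚ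
        (Set.range fun (u : Fin (n + 1) → K) (v : Fin (n + 1) → K) =>
          Algebra.norm ℚ (∑ i, u i * v i)) ∧
      ∃ H : B, (∀ v, algebraMap ℚ K (j H v) = ∑ i, ∑ k, M i k * v i * σ (v k)) ∧
      ∃ (C : Type) (_ : CommRing C) (_ : Algebra ℚ C) (𝒞 : ℕ → Submodule ℚ C)
        (_ : GradedAlgebra 𝒞) (π : B →ₐ[ℚ] C), Function.Surjective π ∧
        (∀ i, ∀ b ∈ ℬ i, π b ∈ 𝒞 i) ∧ RingHom.ker π = Ideal.span {H} :=
  Pool.MP_602153_ag.Herm.exists_ring hK σ hσ M hM hdet

end Pool.Agent.Results.MP_602153_ag.HermitianVarieties
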