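import Pool.Agent.NT9.SvFin
import Pool.Agent.NT9.Fin
import Pool.Agent.NT9.GeMainB
import Pool.Agent.MP_602153_ag.IdealModel

set_option autoImplicit false

/-!
# Most hypersurfaces have a regular projective flat model over the integers

The notions of the statement are defined in `Pool/Agent/NodHyp/Stmt.lean`:

* `SmoothQ F`: the hypersurface `F = 0` over the rational numbers is smooth;
* `Box n d H`: the integral forms of degree `d` in `n + 1` variables with coefficients of
  absolute value at most `H` (a finite set, `NH.box_finite`);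
* `HasRegularModel F`: the hypersurface `Proj (ℚ[x_0, ..., x_n] / (F))` is the generic fibre of an
  integral, locally Noetherian, regular scheme, projective and flat over `ℤ`.

`result`: for every `n ≥ 2`, every sufficiently large degree `d` and every sufficiently large `H` at
least nine tenths of all integral forms of degree `d` in `n + 1` variables with coefficients of
absolute value at most `H` define a smooth hypersurface over `ℚ` which has a regular projective
flat model over `ℤ`. The degree depends on `n` only.

The proof has two halves.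

* Geometry (`Ge*`): suppose that the singular points of the fibres of `F = 0` of positive
  characteristic are isolated, and that at every closed point of the projective space over `ℤ` at
  which the scheme `F = 0` over `ℤ` is not regular the tangent cone is a quadric, smooth or with a
  smooth hyperplane section (`GoodF`). Then the iterated blow up of `F = 0` over `ℤ` in its
  singular points is regular.
* Density (`Cf*`, `Sv*`, `Tl*`): the forms with `SmoothQ F` and this property modulo every prime
  have a proportion of at least `9 / 10` if `d` is large. Here `Cf*` proves that the critical locus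
  of a random polynomial of degree `d` over a finite field with `q` elements is finite up to a
  probability of `q ^ (-E)`, uniformly in `q`; `Sv*` computes the local densities and their sum over
  all primes; `Tl*` treats the large primes.
-/

open AlgebraicGeometry CategoryTheory CategoryTheory.Limits

namespace Pool.Agent.Results.MP_602153_ag.MostHypersurfaces

open MvPolynomial Pool.Agent.NH Pool.Agent.NT9

theorem result (n : ℕ) (hn : 2 ≤ n) : ∃ d₀ : ℕ, ∀ d : ℕ, d₀ ≤ d →
    ∃ H₀ : ℕ, ∀ H : ℕ, H₀ ≤ H → 9 / 10 * ((Box n d H).ncard : ℝ) ≤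
      ({F ∈ Box n d H | SmoothQ F ∧ HasRegularModel F}.ncard : ℝ) := by
  obtain ⟨d₁, h⟩ := sieve_main n
  refine ⟨max d₁ 2, fun d hd => ?_⟩
  obtain ⟨H₀, h'⟩ := h d ((le_max_left _ _).trans hd)
  refine ⟨H₀, fun H hH => (h' H hH).trans ?_⟩
  have hsub : {F ∈ Box n d H | SmoothQ F ∧ ∀ p : ℕ, p.Prime → LocOK F p} ⊆
      {F ∈ Box n d H | SmoothQ F ∧ HasRegularModel F} := fun F hF =>
    ⟨hF.1, hF.2.1, geo hn ((le_max_right _ _).trans hd) hF.1.1 hF.2.1 (goodF_of_locOK hF.2.2)⟩
  exact_mod_cast Set.ncard_le_ncard hsub ((box_finite n d H).subset (Set.sep_subset _ _))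

attribute [local instance] MvPolynomial.gradedAlgebra in
/-- A graded ring as in the definition of `HasRegularModel` exists, so that this notion is not
vacuous. -/
theorem exists_coordinate_ring {n d : ℕ} (F : MvPolynomial (Fin (n + 1)) ℤ)
    (hF : F.IsHomogeneous d) :
    ∃ (B : Type) (_ : CommRing B) (_ : Algebra ℚ B) (ℬ : ℕ → Submodule ℚ B) (_ : GradedAlgebra ℬ)
      (y : Fin (n + 1) → B), (∀ i, y i ∈ ℬ 1) ∧
      Function.Surjective (aeval y : MvPolynomial (Fin (n + 1)) ℚ →ₐ[ℚ] B) ∧
      RingHom.ker (aeval y : MvPolynomial (Fin (n + 1)) ℚ →ₐ[ℚ] B) =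
        Ideal.span {map (algebraMap ℤ ℚ) F} := by
  classical
  let I : Ideal (MvPolynomial (Fin (n + 1)) ℚ) := Ideal.span {map (algebraMap ℤ ℚ) F}
  have hI : I.IsHomogeneous (homogeneousSubmodule (Fin (n + 1)) ℚ) := by
    refine Ideal.homogeneous_span _ _ ?_
    rintro _ rfl
    exact ⟨d, hF.map _⟩
  have hy : aeval (Pool.MP_602153_ag.icoord (I := I)) =
      (Ideal.Quotient.mkₐ ℚ I : MvPolynomial (Fin (n + 1)) ℚ →ₐ[ℚ] _) := by
    apply MvPolynomial.algHom_ext
    intro i
    rw [aeval_X]
    rfl
  refine ⟨MvPolynomial (Fin (n + 1)) ℚ ⧸ I, inferInstance, inferInstance,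
    Pool.MP_602153_ag.igrad I, Pool.MP_602153_ag.iGraded I hI,
    Pool.MP_602153_ag.icoord (I := I), Pool.MP_602153_ag.icoord_mem (I := I), ?_, ?_⟩
  · rw [hy]
    exact Ideal.Quotient.mkₐ_surjective ℚ I
  · rw [hy]
    exact Ideal.Quotient.mkₐ_ker ℚ I

end Pool.Agent.Results.MP_602153_ag.MostHypersurfaces
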