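import Pool.Agent.PW.InA
import Pool.Agent.PW.CyD
import Pool.Agent.MP_602153_ag.IdealModel

set_option autoImplicit false

/-!
# A criterion for regular projective flat models over the integers

The notions of the statement:

* `NH.SmoothQ F`, `NH.HasRegularModel F`, `NH.HasModelZ X` (`Pool/Agent/NodHyp/Stmt.lean`): the
  hypersurface `F = 0` over `ℚ` is smooth; it is, respectively the scheme `X` is, the generic fibre
  of an integral, locally Noetherian, regular scheme, projective and flat over `ℤ`;
* `PW.TameAt F p`, `PW.PowAt F p` (`Pool/Agent/PW/Defs.lean`): two conditions on the reduction of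
  `F` modulo `p`. The first says that the points of the fibre at which the scheme `F = 0` over `ℤ`
  is not regular are finite in number and have a smooth tangent cone, or are isolated
  singularities of the fibre and have a tangent cone with a smooth hyperplane section or a Hessian
  matrix of corank at most one. The second says that `F = u S ^ k + p W` with `k ≥ 2`, where
  `W = 0` meets the smooth points of `S = 0` transversally, except for nondegenerate contact
  points.

`result`: a smooth hypersurface over `ℚ` with a primitive equation which satisfies one of the two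
conditions at every prime number `p` has a regular projective flat model over `ℤ`.

Consequences, proved below:

* `mild`: all singular points of the reductions are isolated and have Hessian corank at most one;
* `quadrics`: every smooth quadric over `ℚ`;
* `diagonal`: the diagonal hypersurfaces `∑ a_i x_i ^ l = 0` of prime degree `l` with squarefree,
  pairwise coprime coefficients prime to `l`, for example the Fermat hypersurface of every prime
  degree;
* `dwork`: the members `∑ x_i ^ (n + 1) = (n + 1) ψ ∏ x_i` of the Dwork pencil if `n + 1` is prime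
  and divides `ψ`;
* `cyclic`: the cyclic covering `y ^ d + G (x_1, ..., x_n) = 0` if the critical points of `G`
  modulo every prime number are nondegenerate.

In `diagonal` and `dwork` the reduction modulo the degree `l` is the multiple hyperplane `S ^ l`.
At a prime number of the second kind the model is the blow up of the product of the ideals
`(p, S ^ j)`, `j = 1, ..., k - 1`, with finitely many ordinary double points blown up afterwards.
At the prime numbers of the first kind the model is an iterated blow up of points.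
-/

open AlgebraicGeometry CategoryTheory CategoryTheory.Limits

namespace Pool.Agent.Results.MP_602153_ag.ReductionCriterion

open MvPolynomial Pool.Agent

theorem result (n d : ℕ) (hn : 2 ≤ n) (hd : 2 ≤ d) (F : MvPolynomial (Fin (n + 1)) ℤ)
    (hF : F.IsHomogeneous d) (hsm : NH.SmoothQ F)
    (hprim : ∀ p : ℕ, p.Prime → ¬ C (p : ℤ) ∣ F)
    (h : ∀ p : ℕ, p.Prime → PW.TameAt F p ∨ PW.PowAt F p) : NH.HasRegularModel F :=
  PW.crit hn hd hF hsm hprim h

/-- The singular points of all reductions are isolated and have Hessian corank at most one. -/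
theorem mild (n d : ℕ) (hn : 2 ≤ n) (hd : 2 ≤ d) (F : MvPolynomial (Fin (n + 1)) ℤ)
    (hF : F.IsHomogeneous d) (hsm : NH.SmoothQ F)
    (hprim : ∀ p : ℕ, p.Prime → ¬ C (p : ℤ) ∣ F)
    (h : ∀ p : ℕ, p.Prime → EvM.MildAt F p) : NH.HasRegularModel F :=
  result n d hn hd F hF hsm hprim fun p hp => Or.inl (PW.tame_of_mild hp hF (h p hp))

/-- Every smooth quadric over `ℚ`. -/
theorem quadrics (n : ℕ) (hn : 2 ≤ n) (M : Matrix (Fin (n + 1)) (Fin (n + 1)) ℚ)
    (hM : M.IsSymm) (hdet : M.det ≠ 0) (B : Type) [CommRing B] [Algebra ℚ B]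
    (ℬ : ℕ → Submodule ℚ B) [GradedAlgebra ℬ] (y : Fin (n + 1) → B) (hy : ∀ i, y i ∈ ℬ 1)
    (hsurj : Function.Surjective (aeval y : MvPolynomial (Fin (n + 1)) ℚ →ₐ[ℚ] B))
    (hker : RingHom.ker (aeval y : MvPolynomial (Fin (n + 1)) ℚ →ₐ[ℚ] B) =
      Ideal.span {∑ i, ∑ j, C (M i j) * X i * X j}) (X : Scheme) (hX : Nonempty (X ≅ Proj ℬ)) :
    NH.HasModelZ X :=
  PW.quad_model hn hM hdet B ℬ y hy hsurj hker X hX

/-- Diagonal hypersurfaces of prime degree; `a i = 1` gives the Fermat hypersurfaces. -/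
theorem diagonal (n l : ℕ) (hn : 2 ≤ n) (hl : l.Prime) (a : Fin (n + 1) → ℤ)
    (hal : ∀ i, ¬ (l : ℤ) ∣ a i)
    (h : ∀ p : ℕ, p.Prime → (∀ i, ¬ (p : ℤ) ^ 2 ∣ a i) ∧
      ∃ i, (∀ j, j ≠ i → ¬ (p : ℤ) ∣ a j) ∨ (¬ (p : ℤ) ∣ a i ∧ ∀ j, j ≠ i → (p : ℤ) ∣ a j)) :
    NH.HasRegularModel (∑ i, C (a i) * X i ^ l) :=
  PW.diag_model hn hl hal h

/-- Members of the Dwork pencil. -/
theorem dwork (n : ℕ) (hn : 2 ≤ n) (ψ : ℤ) (hl : (n + 1).Prime) (hψ : ((n + 1 : ℕ) : ℤ) ∣ ψ) :
    NH.HasRegularModel (∑ i : Fin (n + 1), X i ^ (n + 1) -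
      C (((n + 1 : ℕ) : ℤ) * ψ) * ∏ i : Fin (n + 1), X i) :=
  PW.dwork_model hn hl hψ

/-- Cyclic coverings `y ^ d + G (x_1, ..., x_n) = 0`. -/
theorem cyclic (n d : ℕ) (hn : 2 ≤ n) (hd : 2 ≤ d) (G : MvPolynomial (Fin n) ℤ)
    (hG : G.IsHomogeneous d)
    (h0 : ∀ (L : Type) [Field L] [CharZero L] (x : Fin n → L),
      (∀ i, aeval x (pderiv i G) = 0) → x = 0)
    (h : ∀ p : ℕ, p.Prime → PW.MorseAt G p) :
    NH.HasRegularModel (X 0 ^ d + rename Fin.succ G) :=
  PW.cyc_model hn hd hG h0 h

attribute [local instance] MvPolynomial.gradedAlgebra in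
/-- A graded ring as in the definition of `HasRegularModel` exists, so that this notion is not
vacuous. -/
theorem exists_coordinate_ring {n d : ℕ} (F : MvPolynomial (Fin (n + 1)) ℤ)
    (hF : F.IsHomogeneous d) :
    ∃ (B : Type) (_ : CommRing B) (_ : Algebra ℚ B) (ℬ : ℕ → Submodule ℚ B) (_ : GradedAlgebra ℬ)
      (y : Fin (n + 1) → B), (∀ i, y i ∈ ℬ 1) ∧
      Function.Surjective (aeval y : MvPolynomial (Fin (n + 1)) ℚ →ₐ[ℚ] B) ∧
      RingHom.ker (aeval y : MvPolynomial (Fin (n + 1)) ℚ →ₐ[ℚ] B) =
        Ideal.span {map (algebraMap ℤ ℚ) F} := by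
  classical
  let I : Ideal (MvPolynomial (Fin (n + 1)) ℚ) := Ideal.span {map (algebraMap ℤ ℚ) F}
  have hI : I.IsHomogeneous (homogeneousSubmodule (Fin (n + 1)) ℚ) := by
    refine Ideal.homogeneous_span _ _ ?_
    rintro _ rfl
    exact ⟨d, hF.map _⟩
  have hy : aeval (Pool.MP_602153_ag.icoord (I := I)) =
      (Ideal.Quotient.mkₐ ℚ I : MvPolynomial (Fin (n + 1)) ℚ →ₐ[ℚ] _) := by
    apply MvPolynomial.algHom_ext
    intro i
    rw [aeval_X]
    rfl
  refine ⟨MvPolynomial (Fin (n + 1)) ℚ ⧸ I, inferInstance, inferInstance,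
    Pool.MP_602153_ag.igrad I, Pool.MP_602153_ag.iGraded I hI,
    Pool.MP_602153_ag.icoord (I := I), Pool.MP_602153_ag.icoord_mem (I := I), ?_, ?_⟩
  · rw [hy]
    exact Ideal.Quotient.mkₐ_surjective ℚ I
  · rw [hy]
    exact Ideal.Quotient.mkₐ_ker ℚ I

end Pool.Agent.Results.MP_602153_ag.ReductionCriterion
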